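import Pool.Agent.H83.VC.Upper
import Pool.Agent.H83.VC.Random
set_option autoImplicit false

/-!
# MP_dd2a7c_co: the Freiman-Ruzsa theorem for sets of bounded VC-dimension

Let `A` be a finite set in an abelian group with `|A + A| ≤ K |A|`, and let `d` be the
VC-dimension of the family of all translates of `A` (`VCLe A d`: the translates of `A` shatter no
set with more than `d` elements).

1. `A` is covered by `(3 (d + 1) K) ^ (C (d + 1))` translates of a centred convex coset
   progression of volume at most `|A|` and dimension at most `C (d + 1)`; the dimension does not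
   depend on `K`.  So the statement of the problem holds for all sets of VC-dimension at most `d`
   with a constant depending only on `d`.  More generally, it suffices that `A` is controlled by
   a set `B` of VC-dimension at most `d`: `|A + B| ≤ K |B|` and `|B| ≤ K |A|`.
2. The bound for the dimension is sharp up to the constant: for every `D` there are (for every
   `R`) sets `A ⊆ ℤ^D` of VC-dimension at most `2 D` and doubling at most `2 ^ D` which are not
   covered by `R` translates of a coset progression of dimension less than `D`.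
3. The bound `K ^ (O (d))` for the number of translates is sharp as well, even if much larger
   dimensions are allowed: for `d ≥ 63` and `K = 4 ^ m`, `m ≥ 8`, there is a set of VC-dimension at
   most `d` and doubling at most `K` such that every covering by translates of a coset progression
   of dimension at most `(log₂ K) / 4` uses at least `K ^ ((d - 62) / 64)` translates.

Proof of 1: by Sauer-Shelah and random sampling, few translates of `B` are pairwise separated, so
there is a large `T ⊆ A` with `|x + B ∆ B| ≤ |B| / n` for all `x ∈ T - T`, where `n` is a small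
power of `(d + 1) K`; then the `n`-fold sumset of `T - T` has at most `2 |B|` elements, and the
theorem on iterated sumsets applies.  Proof of 3: a counting argument for the subsets of
`{0, ..., 2^s - 1}^m` of density `2 ^ (-m)`.
-/

open scoped Pointwise

namespace Pool.Agent.Results.MP_dd2a7c_co.BoundedVCDimension

/-- The finite set `Y` is shattered by the translates of `A`: every `Z ⊆ Y` is the intersection
of `Y` with some translate `x + A`. -/
def Shattered {Γ : Type*} [AddCommGroup Γ] (A Y : Finset Γ) : Prop :=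
  ∀ Z ⊆ Y, ∃ x : Γ, ∀ y ∈ Y, y - x ∈ A ↔ y ∈ Z

/-- The family of the translates of `A` has VC-dimension at most `d`. -/
def VCLe {Γ : Type*} [AddCommGroup Γ] (A : Finset Γ) (d : ℕ) : Prop :=
  ∀ Y : Finset Γ, Shattered A Y → Y.card ≤ d

/-- centrally symmetric convex body -/
def SymmBody {r : ℕ} (C : Set (Fin r → ℝ)) : Prop :=
  Convex ℝ C ∧ IsCompact C ∧ (interior C).Nonempty ∧ ∀ x ∈ C, -x ∈ C

/-- `A` is covered by the translates `t + Q`, `t ∈ W`, of the set `Q = ψ (ℤ^r ∩ C) + H`. -/
def Covers {Γ : Type*} [AddCommGroup Γ] {r : ℕ} (C : Set (Fin r → ℝ)) (ψ : (Fin r → ℤ) →+ Γ)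
    (H : AddSubgroup Γ) (W A : Finset Γ) : Prop :=
  ∀ a ∈ A, ∃ t ∈ W, ∃ x : Fin r → ℤ, (fun i => (x i : ℝ)) ∈ C ∧ ∃ h ∈ H, a = t + ψ x + h

theorem result.{u} :
    -- 1. upper bound
    (∀ (Γ : Type u) [AddCommGroup Γ] [DecidableEq Γ] (K : ℝ) (d : ℕ) (A B : Finset Γ),
      A.Nonempty → B.Nonempty → ((A + B).card : ℝ) ≤ K * B.card → (B.card : ℝ) ≤ K * A.card →
      VCLe B d →
      ∃ (r : ℕ) (C : Set (Fin r → ℝ)) (ψ : (Fin r → ℤ) →+ Γ) (H : AddSubgroup Γ) (W : Finset Γ),
        r ≤ 3360 * (d + 1) ∧ SymmBody C ∧ Finite H ∧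
        {x : Fin r → ℤ | (fun i => (x i : ℝ)) ∈ C}.ncard * Nat.card H ≤ A.card ∧
        (W.card : ℝ) ≤ (3 * (d + 1) * K) ^ (2752032 * (d + 1)) ∧ Covers C ψ H W A) ∧
    -- 2. the dimension has to be linear in `d`
    (∀ D R : ℕ, ∃ A : Finset (Fin D → ℤ), A.Nonempty ∧ VCLe A (2 * D) ∧
      (A + A).card ≤ 2 ^ D * A.card ∧
      ∀ (r : ℕ) (C : Set (Fin r → ℝ)) (ψ : (Fin r → ℤ) →+ (Fin D → ℤ))
        (H : AddSubgroup (Fin D → ℤ)) (W : Finset (Fin D → ℤ)),
        r < D → Finite H → Covers C ψ H W A → R < W.card) ∧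
    -- 3. the number of translates has to be `K ^ (c d)`, even for dimensions up to `(log₂ K) / 4`
    (∀ d m : ℕ, 63 ≤ d → 8 ≤ m → ∃ A : Finset (Fin m → ℤ), A.Nonempty ∧ VCLe A d ∧
      (A + A).card ≤ 4 ^ m * A.card ∧
      ∀ (r : ℕ) (C : Set (Fin r → ℝ)) (ψ : (Fin r → ℤ) →+ (Fin m → ℤ))
        (H : AddSubgroup (Fin m → ℤ)) (W : Finset (Fin m → ℤ)),
        2 * r ≤ m → Finite H → Covers C ψ H W A → (4 ^ m) ^ d ≤ (4 ^ m) ^ 62 * W.card ^ 64) := by
  refine ⟨?_, ?_, ?_⟩
  · intro Γ _ _ K d A B hA hB hAB hBA hvc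
    exact H83.VC.bounded_vc K d A B hA hB hAB hBA hvc
  · intro D R
    obtain ⟨A, hA, hvc, hdbl, h⟩ := H83.VC.lower_rank D R
    refine ⟨A, hA, hvc, hdbl, ?_⟩
    intro r C ψ H W hr hH hcov
    apply h r ψ H W hr hH
    intro a ha
    obtain ⟨t, ht, c, _, h', hh', e⟩ := hcov a ha
    exact ⟨t, ht, c, h', hh', e⟩
  · intro d m hd hm
    obtain ⟨s, hs⟩ : ∃ s, s = (d - 15) / 16 := ⟨_, rfl⟩
    obtain ⟨A, hA, hvc, hdbl, h⟩ := H83.VC.lower_translates s m (by omega) hm
    refine ⟨A, hA, ?_, hdbl, ?_⟩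
    · intro Y hY
      exact (hvc Y hY).trans (by omega)
    intro r C ψ H W hr hH hcov
    have h1 : 2 ^ (s * m) ≤ 2 ^ (m + s * r) * W.card := by
      apply h r ψ H W hH
      intro a ha
      obtain ⟨t, ht, c, _, h', hh', e⟩ := hcov a ha
      exact ⟨t, ht, c, h', hh', e⟩
    -- `2 ^ (s m) ≤ 2 ^ (2 m) |W| ^ 2`
    have h2 : 2 ^ (s * m) ≤ 2 ^ (2 * m) * W.card ^ 2 := by
      have h3 : 2 ^ (s * m) * 2 ^ (s * m) ≤ (2 ^ (2 * m) * W.card ^ 2) * 2 ^ (s * m) := by
        calc 2 ^ (s * m) * 2 ^ (s * m)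
            ≤ (2 ^ (m + s * r) * W.card) * (2 ^ (m + s * r) * W.card) := Nat.mul_le_mul h1 h1
          _ = 2 ^ (2 * m + s * (2 * r)) * W.card ^ 2 := by
              have : 2 ^ (2 * m + s * (2 * r)) = 2 ^ (m + s * r) * 2 ^ (m + s * r) := by
                rw [← pow_add]; congr 1; ring
              rw [this]; ring
          _ ≤ 2 ^ (2 * m + s * m) * W.card ^ 2 := by
              apply Nat.mul_le_mul_right
              exact Nat.pow_le_pow_right (by norm_num)
                (Nat.add_le_add_left (Nat.mul_le_mul_left _ hr) _)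
          _ = (2 ^ (2 * m) * W.card ^ 2) * 2 ^ (s * m) := by rw [pow_add]; ring
      exact Nat.le_of_mul_le_mul_right h3 (by positivity)
    have h4 : 2 ^ (32 * (s * m)) ≤ 2 ^ (64 * m) * W.card ^ 64 := by
      calc 2 ^ (32 * (s * m)) = (2 ^ (s * m)) ^ 32 := by rw [← pow_mul]; congr 1; ring
        _ ≤ (2 ^ (2 * m) * W.card ^ 2) ^ 32 := Nat.pow_le_pow_left h2 32
        _ = 2 ^ (64 * m) * W.card ^ 64 := by
            rw [mul_pow, ← pow_mul, ← pow_mul]; congr 2; ring
    have h5 : (4 : ℕ) = 2 ^ 2 := by norm_num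
    have h6 : d ≤ 16 * s + 30 := by omega
    calc (4 ^ m) ^ d = 2 ^ (2 * (m * d)) := by rw [h5, ← pow_mul, ← pow_mul]
      _ ≤ 2 ^ (2 * (m * (16 * s + 30))) := by
          apply Nat.pow_le_pow_right (by norm_num)
          exact Nat.mul_le_mul_left _ (Nat.mul_le_mul_left _ h6)
      _ = 2 ^ (60 * m) * 2 ^ (32 * (s * m)) := by rw [← pow_add]; congr 1; ring
      _ ≤ 2 ^ (60 * m) * (2 ^ (64 * m) * W.card ^ 64) := Nat.mul_le_mul_left _ h4
      _ = 2 ^ (124 * m) * W.card ^ 64 := by rw [← mul_assoc, ← pow_add]; congr 2; ring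
      _ = (4 ^ m) ^ 62 * W.card ^ 64 := by
          rw [h5, ← pow_mul, ← pow_mul]; congr 2; ring

end Pool.Agent.Results.MP_dd2a7c_co.BoundedVCDimension
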