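import Pool.Agent.H98.Hil.Gen

/-!
# The polynomial Freiman-Ruzsa statement for balls of conditionally negative definite functions
-/

set_option autoImplicit false

namespace Pool.Agent.Results.MP_dd2a7c_co.HilbertianBalls

open Finset Pool.Agent.Y806.DF Pool.Agent.H98.Hil
open scoped Pointwise

universe u v

/-- the number of the scales -/
theorem scales {W w : ℝ} (hw0 : 0 < w) (hw1 : w < 1) (hW : 0 ≤ W) (a : ℕ) :
    ∃ n : ℕ, ∀ κ : ℝ, 0 ≤ κ → ∃ I : ℕ, W * (κ + 1) * w ^ I ≤ 1 ∧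
      (4 : ℝ) ^ (I + a + 3) ≤ (4 ^ (a + 4) * (W + 1) ^ n) * (κ + 1) ^ n := by
  classical
  obtain ⟨n, hn⟩ := exists_pow_lt_of_lt_one (show (0 : ℝ) < 1 / 4 by norm_num) hw1
  refine ⟨n, fun κ hκ => ?_⟩
  have hκ1 : 1 ≤ κ + 1 := by linarith
  have hex : ∃ I : ℕ, W * (κ + 1) * w ^ I ≤ 1 := by
    obtain ⟨I, hI⟩ := exists_pow_lt_of_lt_one (show (0 : ℝ) < 1 / (W * (κ + 1) + 1) by positivity) hw1
    refine ⟨I, ?_⟩
    rw [lt_div_iff₀ (by positivity)] at hI
    have : 0 < w ^ I := by positivity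
    nlinarith
  set I := Nat.find hex with hI
  have hI1 : W * (κ + 1) * w ^ I ≤ 1 := Nat.find_spec hex
  refine ⟨I, hI1, ?_⟩
  have hWn : 1 ≤ (W + 1) ^ n := one_le_pow₀ (by linarith)
  have hκn : 1 ≤ (κ + 1) ^ n := one_le_pow₀ hκ1
  have h4a : (0 : ℝ) < 4 ^ (a + 4) := by positivity
  rcases Nat.eq_zero_or_pos I with h0 | h0
  · rw [h0]
    calc (4 : ℝ) ^ (0 + a + 3) ≤ 4 ^ (a + 4) := pow_le_pow_right₀ (by norm_num) (by omega)
      _ = 4 ^ (a + 4) * 1 * 1 := by ring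
      _ ≤ (4 ^ (a + 4) * (W + 1) ^ n) * (κ + 1) ^ n :=
        mul_le_mul (mul_le_mul_of_nonneg_left hWn h4a.le) hκn (by norm_num) (by positivity)
  · have hlt : ¬ W * (κ + 1) * w ^ (I - 1) ≤ 1 := Nat.find_min hex (by omega)
    push Not at hlt
    have h1 : 1 ≤ ((W + 1) * (κ + 1)) * w ^ (I - 1) := by
      have : 0 < (κ + 1) * w ^ (I - 1) := by positivity
      nlinarith
    have h2 : (4 : ℝ) ^ (I - 1) * (w ^ n) ^ (I - 1) ≤ 1 := by
      rw [← mul_pow]
      refine pow_le_one₀ (by positivity) ?_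
      linarith
    have h3 : 1 ≤ ((W + 1) * (κ + 1)) ^ n * (w ^ n) ^ (I - 1) := by
      calc (1 : ℝ) = 1 ^ n := (one_pow n).symm
        _ ≤ (((W + 1) * (κ + 1)) * w ^ (I - 1)) ^ n := pow_le_pow_left₀ (by norm_num) h1 n
        _ = ((W + 1) * (κ + 1)) ^ n * (w ^ n) ^ (I - 1) := by
            rw [mul_pow, ← pow_mul, ← pow_mul, mul_comm (I - 1) n]
    have h4 : (4 : ℝ) ^ (I - 1) ≤ ((W + 1) * (κ + 1)) ^ n := by
      have h5 : 0 < (w ^ n) ^ (I - 1) := by positivity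
      exact le_of_mul_le_mul_right (h2.trans h3) h5
    calc (4 : ℝ) ^ (I + a + 3) = 4 ^ (a + 4) * 4 ^ (I - 1) := by
          rw [← pow_add]
          congr 1
          omega
      _ ≤ 4 ^ (a + 4) * ((W + 1) * (κ + 1)) ^ n := mul_le_mul_of_nonneg_left h4 h4a.le
      _ = (4 ^ (a + 4) * (W + 1) ^ n) * (κ + 1) ^ n := by
          rw [mul_pow]
          ring

/-- the number of the translates -/
theorem final_T {P κ K C : ℝ} (n : ℕ) (hP : 0 ≤ P) (hκ : 0 ≤ κ) (hK0 : 0 < K)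
    (hexpκ : Real.exp κ = K) (hC0 : 0 < C) (h1 : 5000 * (2 * Real.exp P) ^ n ≤ C)
    (h2 : n * (2 * P + 4) ≤ C) :
    5000 * (2 * Real.exp (P * (κ + 1)) * K ^ 3) ^ n ≤ C * K ^ C := by
  have hBeq : 2 * Real.exp (P * (κ + 1)) * K ^ 3 = (2 * Real.exp P) * (Real.exp (P * κ) * K ^ 3) := by
    rw [mul_add, mul_one, Real.exp_add]
    ring
  rw [hBeq, mul_pow]
  have h7 : (Real.exp (P * κ) * K ^ 3) ^ n ≤ K ^ C := by
    rw [Real.rpow_def_of_pos hK0, ← hexpκ, ← Real.exp_nat_mul, ← Real.exp_add, ← Real.exp_nat_mul]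
    refine Real.exp_le_exp.2 ?_
    rw [Real.log_exp]
    push_cast
    have h8 : n * (2 * P + 4) * κ ≤ C * κ := mul_le_mul_of_nonneg_right h2 hκ
    have h9 : 0 ≤ n * P * κ := by positivity
    have h10 : 0 ≤ n * κ := by positivity
    nlinarith
  calc 5000 * ((2 * Real.exp P) ^ n * (Real.exp (P * κ) * K ^ 3) ^ n)
      = (5000 * (2 * Real.exp P) ^ n) * (Real.exp (P * κ) * K ^ 3) ^ n := by
        rw [mul_assoc]
    _ ≤ C * K ^ C := mul_le_mul h1 h7 (by positivity) hC0.le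

/-- the dimension -/
theorem final_d {P κ K C : ℝ} (hP : 0 ≤ P) (hκ : 0 ≤ κ) (hK0 : 0 < K)
    (hlogK : Real.log K = κ) (hCP : 5000 * (2 * P + 4) ≤ C) :
    500 * Real.log (2 * (2 * Real.exp (P * (κ + 1)) * K ^ 3)) ≤ C * Real.log (2 * K) := by
  have hlog2 : 0.69 < Real.log 2 := by
    have := Real.log_two_gt_d9
    linarith
  have hlog2' : Real.log 2 < 0.7 := by
    have := Real.log_two_lt_d9
    linarith
  have hlog2K : Real.log (2 * K) = Real.log 2 + κ := by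
    rw [Real.log_mul (by norm_num) hK0.ne', hlogK]
  have h7 : Real.log (2 * (2 * Real.exp (P * (κ + 1)) * K ^ 3)) =
      2 * Real.log 2 + P * (κ + 1) + 3 * κ := by
    rw [Real.log_mul (by norm_num) (by positivity), Real.log_mul (by positivity) (by positivity),
      Real.log_mul (by norm_num) (by positivity), Real.log_exp, Real.log_pow, hlogK]
    push_cast
    ring
  rw [h7, hlog2K]
  have h8 : 500 * (2 * Real.log 2 + P * (κ + 1) + 3 * κ) ≤
      5000 * (2 * P + 4) * (Real.log 2 + κ) := by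
    have : 0 ≤ P * κ := by positivity
    nlinarith
  refine h8.trans (mul_le_mul_of_nonneg_right hCP ?_)
  linarith

/-- the constant -/
theorem exists_const {P A : ℝ} (hP : 0 ≤ P) (hA : 0 ≤ A) (n m : ℕ) :
    ∃ C : ℝ, 0 < C ∧ A ≤ C ∧ (n : ℝ) ≤ C ∧ 5000 * (2 * Real.exp P) ^ m ≤ C ∧
      m * (2 * P + 4) ≤ C ∧ 5000 * (2 * P + 4) ≤ C := by
  have h0 : 0 ≤ 5000 * (2 * Real.exp P) ^ m := by positivity
  have h2 : (0 : ℝ) ≤ n := Nat.cast_nonneg _
  have h3 : 0 ≤ m * (2 * P + 4) := by positivity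
  refine ⟨A + n + 5000 * (2 * Real.exp P) ^ m + m * (2 * P + 4) + 5000 * (2 * P + 4), ?_, ?_, ?_,
    ?_, ?_, ?_⟩ <;> linarith

/-- **Main theorem.** For every `c < 1` there is `C` such that the following holds for every abelian
group `Γ` and every function `N` on `Γ` which is the square of a translation invariant Hilbertian
pseudometric: if `A` is covered by `K` translates of the ball `{N ≤ r}`, this ball has at most `K |A|`
elements, and `|{N ≤ μ r}| ≤ K^(μ^c) |{N ≤ r}|` for `1 ≤ μ ≤ C (1 + log K)^C`, then `A` satisfies the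
conclusion of the polynomial Freiman-Ruzsa conjecture with the constant `C`. -/
theorem result (c : ℝ) (hc : c < 1) : ∃ C : ℝ, ∀ (Γ : Type u) [AddCommGroup Γ] (E : Type v)
    [NormedAddCommGroup E] [InnerProductSpace ℝ E] (b : Γ → E) (N : Γ → ℝ) (K r : ℝ)
    (A T : Finset Γ), (∀ x y, ‖b x - b y‖ ^ 2 = N (x - y)) → 1 ≤ K → 0 < r → A.Nonempty →
    (T.card : ℝ) ≤ K → (∀ a ∈ A, ∃ t ∈ T, N (a - t) ≤ r) →
    ({x | N x ≤ r}.ncard : ℝ) ≤ K * A.card →
    (∀ μ : ℝ, 1 ≤ μ → μ ≤ C * (1 + Real.log K) ^ C → {x | N x ≤ μ * r}.Finite ∧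
      ({x | N x ≤ μ * r}.ncard : ℝ) ≤ K ^ (μ ^ c) * {x | N x ≤ r}.ncard) →
    ∃ (d : ℕ) (B : Set (Fin d → ℝ)) (ψ : (Fin d → ℤ) →+ Γ) (H : AddSubgroup Γ) (T' : Finset Γ),
      (d : ℝ) ≤ C * Real.log (2 * K) ∧
      Convex ℝ B ∧ IsCompact B ∧ (interior B).Nonempty ∧ (∀ x ∈ B, -x ∈ B) ∧
      Finite H ∧
      {x : Fin d → ℤ | (fun i => (x i : ℝ)) ∈ B}.ncard * Nat.card H ≤ A.card ∧
      (T'.card : ℝ) ≤ C * K ^ C ∧
      ∀ a ∈ A, ∃ t ∈ T', ∃ x : Fin d → ℤ, (fun i => (x i : ℝ)) ∈ B ∧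
        ∃ h ∈ H, a = t + ψ x + h := by
  classical
  set c' : ℝ := max c (1 / 2) with hc'
  have hc1 : c' < 1 := max_lt hc (by norm_num)
  have hc2 : 1 / 2 ≤ c' := le_max_right _ _
  set q : ℝ := (4 : ℝ) ^ c' with hq
  have hq2 : 2 ≤ q := by
    have h1 : (4 : ℝ) ^ (1 / 2 : ℝ) = 2 := by
      rw [← Real.sqrt_eq_rpow, show (4 : ℝ) = 2 ^ 2 by norm_num, Real.sqrt_sq (by norm_num)]
    rw [← h1]
    exact Real.rpow_le_rpow_of_exponent_le (by norm_num) hc2
  have hq4 : q < 4 := by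
    calc q < (4 : ℝ) ^ (1 : ℝ) := Real.rpow_lt_rpow_of_exponent_lt (by norm_num) hc1
      _ = 4 := Real.rpow_one 4
  obtain ⟨a, W, w, hw0, hw1, hW, hgen⟩ := gen.{u, v} hq2 hq4
  obtain ⟨n, hn⟩ := scales hw0 hw1 hW a
  set P : ℝ := 4 ^ (a + 1) + W + 4 with hP
  have hP0 : 0 < P := by positivity
  obtain ⟨C, hC0, hCa, hCn, hCrest⟩ := exists_const (A := 4 ^ (a + 4) * (W + 1) ^ n)
    hP0.le (by positivity) n 5000
  refine ⟨C, ?_⟩
  intro Γ _ E _ _ b N K r A T hb hK hr hA hT hAT hball hgrow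
  have hK0 : 0 < K := by linarith
  set κ : ℝ := Real.log K with hκ
  have hκ0 : 0 ≤ κ := Real.log_nonneg hK
  have hκ1 : 1 ≤ κ + 1 := by linarith
  have hexpκ : Real.exp κ = K := Real.exp_log hK0
  obtain ⟨I, hI1, hI2⟩ := hn κ hκ0
  -- the metric
  have hN0 : ∀ x, 0 ≤ N x := by
    intro x
    have := hb x 0
    rw [sub_zero] at this
    rw [← this]
    positivity
  set ℓ : Γ → ℝ := fun x => Real.sqrt (N x / r) with hℓ
  set b' : Γ → E := fun x => (1 / Real.sqrt r) • b x with hb'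
  have hsr : 0 < Real.sqrt r := Real.sqrt_pos.2 hr
  have hbℓ : ∀ x y, ‖b' x - b' y‖ = ℓ (x - y) := by
    intro x y
    simp only [hb', hℓ]
    rw [← smul_sub, norm_smul, Real.norm_of_nonneg (by positivity), ← hb x y, Real.sqrt_div (by positivity),
      Real.sqrt_sq (norm_nonneg _)]
    ring
  have hℓN : ∀ (n : ℕ) (x : Γ), ℓ x ≤ 2 ^ n ↔ N x ≤ 4 ^ n * r := by
    intro n x
    simp only [hℓ]
    rw [Real.sqrt_le_left (by positivity), div_le_iff₀ hr, ← pow_mul, mul_comm n 2, pow_mul]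
    norm_num
  -- the balls
  have hrange : ∀ n ≤ I + a + 3, (4 : ℝ) ^ n ≤ C * (1 + κ) ^ C := by
    intro m hm
    calc (4 : ℝ) ^ m ≤ 4 ^ (I + a + 3) := pow_le_pow_right₀ (by norm_num) hm
      _ ≤ (4 ^ (a + 4) * (W + 1) ^ n) * (κ + 1) ^ n := hI2
      _ ≤ C * (κ + 1) ^ n := mul_le_mul_of_nonneg_right hCa (by positivity)
      _ ≤ C * (1 + κ) ^ C := by
          refine mul_le_mul_of_nonneg_left ?_ hC0.le
          rw [add_comm κ 1, ← Real.rpow_natCast]
          exact Real.rpow_le_rpow_of_exponent_le (by linarith) hCn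
  have hfin : ∀ n ≤ I + a + 3, {x | N x ≤ 4 ^ n * r}.Finite :=
    fun n hn => (hgrow (4 ^ n) (one_le_pow₀ (by norm_num)) (hrange n hn)).1
  set D : ℕ → Finset Γ := fun n => if h : {x | N x ≤ 4 ^ n * r}.Finite then h.toFinset else ∅ with hD
  have hDmem : ∀ n ≤ I + a + 3, ∀ x, x ∈ D n ↔ N x ≤ 4 ^ n * r := by
    intro n hn x
    simp only [hD]
    rw [dif_pos (hfin n hn), Set.Finite.mem_toFinset]
    rfl
  have hDℓ : ∀ n ≤ I + a + 3, ∀ x, x ∈ D n ↔ ℓ x ≤ 2 ^ n := by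
    intro n hn x
    rw [hDmem n hn, hℓN]
  have hDcard : ∀ n ≤ I + a + 3, (D n).card = {x | N x ≤ 4 ^ n * r}.ncard := by
    intro n hn
    simp only [hD]
    rw [dif_pos (hfin n hn), Set.ncard_eq_toFinset_card _ (hfin n hn)]
  have hD0card : (D 0).card = {x | N x ≤ r}.ncard := by
    rw [hDcard 0 (by omega)]
    congr 1
    ext x
    simp
  have hDgrow : ∀ n ≤ I + a + 3, ((D n).card : ℝ) ≤ Real.exp (κ * q ^ n) * (D 0).card := by
    intro n hn
    rw [hDcard n hn, hD0card]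
    refine (hgrow (4 ^ n) (one_le_pow₀ (by norm_num)) (hrange n hn)).2.trans ?_
    refine mul_le_mul_of_nonneg_right ?_ (Nat.cast_nonneg _)
    rw [Real.rpow_def_of_pos hK0]
    refine Real.exp_le_exp.2 (mul_le_mul_of_nonneg_left ?_ hκ0)
    have h1 : q ^ n = ((4 : ℝ) ^ n) ^ c' := by
      rw [hq, ← Real.rpow_natCast, ← Real.rpow_natCast, ← Real.rpow_mul (by norm_num),
        ← Real.rpow_mul (by norm_num), mul_comm]
    rw [h1]
    exact Real.rpow_le_rpow_of_exponent_le (one_le_pow₀ (by norm_num)) (le_max_left _ _)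
  obtain ⟨E', d, X, ψ, H, hE'D, hE'c, hX, hH, hhull, hXX, hcov⟩ := hgen Γ E b' ℓ hbℓ κ hκ0 I hI1 D
    hDℓ hDgrow
  -- the end
  set B : ℝ := Real.exp (P * (κ + 1)) with hB
  have hB1 : 1 ≤ B := Real.one_le_exp (by positivity)
  have hqa : ∀ m : ℕ, m ≤ a + 1 → q ^ m ≤ 4 ^ (a + 1) := by
    intro m hm
    calc q ^ m ≤ 4 ^ m := pow_le_pow_left₀ (by linarith) hq4.le m
      _ ≤ 4 ^ (a + 1) := pow_le_pow_right₀ (by norm_num) hm
  obtain ⟨d', B', θ, H', T', h1, h2, h3, h4, h5, h6⟩ := finish (K := K) (B := B) (A := A) (T := T)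
    (D0 := D 0) (D1 := D 1) (E' := E') hK hB1 hA hT
    (fun a' ha' => by
      obtain ⟨t, ht, hat⟩ := hAT a' ha'
      refine ⟨t, ht, (hDmem 0 (by omega) _).2 ?_⟩
      rw [pow_zero, one_mul]
      exact hat)
    (by rw [hD0card]; exact hball)
    (by
      refine (hDgrow 1 (by omega)).trans (mul_le_mul_of_nonneg_right ?_ (Nat.cast_nonneg _))
      refine Real.exp_le_exp.2 ?_
      have h1 := hqa 1 (by omega)
      calc κ * q ^ 1 ≤ κ * 4 ^ (a + 1) := mul_le_mul_of_nonneg_left h1 hκ0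
        _ ≤ P * (κ + 1) := by
            have h2 : (0 : ℝ) < 4 ^ (a + 1) := by positivity
            rw [hP]
            nlinarith)
    (fun x hx y hy => by
      rw [hDℓ 0 (by omega)] at hx hy
      rw [hDℓ 1 (by omega)]
      have := ell_add hbℓ x y
      norm_num at hx hy ⊢
      linarith)
    (fun x hx y hy => by
      rw [hDℓ 0 (by omega)] at hx hy
      rw [hDℓ 1 (by omega), sub_eq_add_neg]
      have := ell_add hbℓ x (-y)
      rw [ell_neg hbℓ] at this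
      norm_num at hx hy ⊢
      linarith)
    hE'D hE'c hX hH hhull
    (by
      refine hXX.trans ?_
      have h1 := hDgrow (a + 1) (by omega)
      calc ((D (a + 1)).card : ℝ) * Real.exp (W * (κ + 1))
          ≤ (Real.exp (κ * q ^ (a + 1)) * (D 0).card) * Real.exp (W * (κ + 1)) :=
            mul_le_mul_of_nonneg_right h1 (Real.exp_pos _).le
        _ = Real.exp (κ * q ^ (a + 1) + W * (κ + 1)) * (D 0).card := by
            rw [Real.exp_add]
            ring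
        _ ≤ B * (D 0).card := by
            refine mul_le_mul_of_nonneg_right (Real.exp_le_exp.2 ?_) (Nat.cast_nonneg _)
            have h2 := mul_le_mul_of_nonneg_left (hqa (a + 1) le_rfl) hκ0
            have h3 : (0 : ℝ) < 4 ^ (a + 1) := by positivity
            rw [hP]
            nlinarith)
    hcov
  refine ⟨d', B', θ, H', T', ?_, h2.1, h2.2.1, h2.2.2.1, h2.2.2.2, h3, h4, ?_, ?_⟩
  · exact h1.trans (final_d hP0.le hκ0 hK0 hκ.symm hCrest.2.2)
  · exact h5.trans (final_T 5000 hP0.le hκ0 hK0 hexpκ hC0 hCrest.1 hCrest.2.1)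
  · intro a' ha'
    obtain ⟨t, ht, x, hx, h, hh, he⟩ := h6 a' ha'
    exact ⟨t, ht, x, hx, h, hh, he⟩

end Pool.Agent.Results.MP_dd2a7c_co.HilbertianBalls
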