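import Pool.Agent.H98.Fold.Thm
import Pool.Agent.H98.Fold.Q9

/-!
# The polynomial Freiman-Ruzsa statement for sums of many copies of arbitrary sets
-/

set_option autoImplicit false

namespace Pool.Agent.Results.MP_dd2a7c_co.PolylogSumsets

open Finset Pool.Agent.H98.Fold
open scoped Pointwise

universe u

/-- **Main theorem.** There is an absolute constant `C` such that the following holds for every abelian
group `Γ`, every `K ≥ 1`, every `r`, all finite nonempty sets `A_1, ..., A_r ⊆ Γ`, all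
`n_1, ..., n_r ≥ C (1 + log K)^9` and every finite nonempty `B ⊆ Γ`. Let `X = n_1 A_1 + ... + n_r A_r`
be the sum of `n_1` copies of `A_1`, `n_2` copies of `A_2`, and so on. If `|B + X| ≤ K |X|` and
`|X| ≤ K |B|` (for instance, `B = X` and `|X + X| ≤ K |X|`), then `B` satisfies the conclusion of the
polynomial Freiman-Ruzsa conjecture with the constant `C`. -/
theorem result : ∃ C : ℝ, ∀ (Γ : Type u) [AddCommGroup Γ] [DecidableEq Γ] (K : ℝ) (r : ℕ)
    (A : Fin r → Finset Γ) (n : Fin r → ℕ) (B X : Finset Γ), 1 ≤ K → (∀ i, (A i).Nonempty) →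
    B.Nonempty → (∀ i, C * (1 + Real.log K) ^ 9 ≤ n i) →
    X = ∑ i, ∑ _j ∈ Finset.range (n i), A i →
    ((B + X).card : ℝ) ≤ K * X.card → (X.card : ℝ) ≤ K * B.card →
    ∃ (d : ℕ) (Q : Set (Fin d → ℝ)) (ψ : (Fin d → ℤ) →+ Γ) (H : AddSubgroup Γ) (T : Finset Γ),
      (d : ℝ) ≤ C * Real.log (2 * K) ∧
      Convex ℝ Q ∧ IsCompact Q ∧ (interior Q).Nonempty ∧ (∀ x ∈ Q, -x ∈ Q) ∧
      Finite H ∧
      {x : Fin d → ℤ | (fun i => (x i : ℝ)) ∈ Q}.ncard * Nat.card H ≤ B.card ∧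
      (T.card : ℝ) ≤ C * K ^ C ∧
      ∀ b ∈ B, ∃ t ∈ T, ∃ x : Fin d → ℤ, (fun i => (x i : ℝ)) ∈ Q ∧
        ∃ h ∈ H, b = t + ψ x + h := by
  obtain ⟨C, hthm⟩ := fold_multi.{u, 0} y9
  refine ⟨C, ?_⟩
  intro Γ _ _ K r A n B X hK hA hB hn hX hBX hXB
  have hX' : X = ∑ i, n i • A i := by
    rw [hX]
    exact Finset.sum_congr rfl fun i _ => by rw [Finset.sum_const, Finset.card_range]
  rw [hX'] at hBX hXB
  obtain ⟨d, Q, ψ, H, T, g1, g2, g3, g4, g5, g6⟩ := hthm Γ (Fin r) Finset.univ K A B n hK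
    (fun i _ => hA i) hB (fun i _ => hn i) hBX hXB
  refine ⟨d, Q, ψ, H, T, g1, g2.1, g2.2.1, g2.2.2.1, g2.2.2.2, g3, g4, g5, ?_⟩
  intro b hb
  obtain ⟨t, ht, x, hx, h, hh, he⟩ := g6 b hb
  exact ⟨t, ht, x, hx, h, hh, he⟩

end Pool.Agent.Results.MP_dd2a7c_co.PolylogSumsets
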