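import Pool.Agent.H602.GM.Char
import Pool.Agent.H602.EX.Interval

/-!
# The abelian groups in which sets of small doubling are dense sets of finite groups

If `q T` is finite for a squarefree `q`, where `T` is the torsion subgroup of `Γ`, then the sets of
doubling `K` in `Γ` are, as a whole and for every order, Freiman isomorphic to sets of density
`K ^ (- O(1))` in finite abelian groups, and Q1 for `Γ` is equivalent to its case of such sets. In every
other abelian group there are sets of doubling `K` whose models have density at most `exp (- c K)`, and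
this is the truth: in every abelian group the sets of doubling `K` have models of order `n` of density at
least `(2 n) ^ (- C K)`. Sets of doubling `K` in groups without nonzero subgroups of order
at most `(2 n) ^ (C K) |A|` are isomorphic of order `n` to sets of integers in an interval of that length.
-/

set_option autoImplicit false

open Finset
open scoped Pointwise

namespace Pool.Agent.Results.MP_dd2a7c_co.PolynomialModelGroups

universe u v w

/-- The set `q T`, where `T` is the torsion subgroup of `Γ`. -/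
def mulTorsion (q : ℕ) (Γ : Type*) [AddCommGroup Γ] : Set Γ :=
  {y | ∃ x : Γ, IsOfFinAddOrder x ∧ q • x = y}

/-- `A` is, as a whole, Freiman isomorphic of order `n` to a subset of a finite abelian group with at
most `F |A|` elements: a set of density at least `1 / F`. -/
def HasModel (n : ℕ) (F : ℝ) {Γ : Type*} [AddCommGroup Γ] (A : Finset Γ) : Prop :=
  ∃ (M : Type) (_ : AddCommGroup M) (_ : Finite M) (B : Set M) (φ : Γ → M),
    (Nat.card M : ℝ) ≤ F * A.card ∧ IsAddFreimanIso n (A : Set Γ) B φ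

/-- `B` is a centrally symmetric convex body. -/
def IsBody {d : ℕ} (B : Set (Fin d → ℝ)) : Prop :=
  Convex ℝ B ∧ IsCompact B ∧ (interior B).Nonempty ∧ ∀ v ∈ B, -v ∈ B

/-- The conclusion of Q1 for `A`, with the constant `C`: `A` is covered by at most `C K ^ C` translates
of a centred convex coset progression `ψ(ℤ^d ∩ B) + H` of dimension `d ≤ C log (2 K)` and of volume
`|H| |ℤ^d ∩ B|` at most `|A|`. -/
def Q1Conclusion (C K : ℝ) {Γ : Type*} [AddCommGroup Γ] (A : Finset Γ) : Prop :=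
  ∃ (d : ℕ) (B : Set (Fin d → ℝ)) (ψ : (Fin d → ℤ) →+ Γ) (H : AddSubgroup Γ) (X : Finset Γ),
    (d : ℝ) ≤ C * Real.log (2 * K) ∧ IsBody B ∧ Finite H ∧
    Nat.card H * {x : Fin d → ℤ | (fun i => (x i : ℝ)) ∈ B}.ncard ≤ A.card ∧
    (X.card : ℝ) ≤ C * K ^ C ∧
    ∀ a ∈ A, ∃ t ∈ X, ∃ x : Fin d → ℤ, (fun i => (x i : ℝ)) ∈ B ∧ ∃ h ∈ H, a = t + (ψ x + h)

theorem Q1Conclusion.mono {C C' K : ℝ} (hK : 1 ≤ K) {Γ : Type*} [AddCommGroup Γ] {A : Finset Γ}
    (hC : C ≤ C') (hC' : 0 ≤ C') (h : Q1Conclusion C K A) : Q1Conclusion C' K A := by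
  obtain ⟨d, B, ψ, H, X, h1, h2, h3, h4, h5, h6⟩ := h
  refine ⟨d, B, ψ, H, X, h1.trans (mul_le_mul_of_nonneg_right hC (Real.log_nonneg (by linarith))), h2,
    h3, h4, ?_, h6⟩
  have e1 : K ^ C ≤ K ^ C' := Real.rpow_le_rpow_of_exponent_le hK hC
  have e2 : 0 ≤ K ^ C := Real.rpow_nonneg (by linarith) _
  calc (X.card : ℝ) ≤ C * K ^ C := h5
    _ ≤ C' * K ^ C := mul_le_mul_of_nonneg_right hC e2
    _ ≤ C' * K ^ C' := mul_le_mul_of_nonneg_left e1 hC'

/-- the conclusion of Q1 for homomorphic images of translates -/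
theorem Q1Conclusion.push {C K : ℝ} {Γ : Type*} [AddCommGroup Γ] {Z : Type*} [AddCommGroup Z]
    {A : Finset Γ} {B : Finset Z} (ψ : Z →+ Γ) (a₀ : Γ) (hc : B.card = A.card)
    (hA : ∀ a ∈ A, ∃ b ∈ B, a = a₀ + ψ b) (h : Q1Conclusion C K B) : Q1Conclusion C K A := by
  classical
  obtain ⟨d, V, χ, H, X, h1, h2, h3, h4, h5, h6⟩ := h
  have hfin : Finite (H.map ψ) := by
    have : Finite (H : Set Z) := h3
    have h7 : ((H : Set Z).image ψ).Finite := Set.Finite.image _ (Set.toFinite _)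
    exact h7
  have hcard : Nat.card (H.map ψ) ≤ Nat.card H := by
    refine Nat.card_le_card_of_surjective (fun x : H => (⟨ψ x, ⟨x, x.2, rfl⟩⟩ : H.map ψ)) ?_
    rintro ⟨y, x, hx, rfl⟩
    exact ⟨⟨x, hx⟩, rfl⟩
  refine ⟨d, V, ψ.comp χ, H.map ψ, X.image (fun t => a₀ + ψ t), h1, h2, hfin, ?_, ?_, ?_⟩
  · rw [← hc]
    exact (Nat.mul_le_mul_right _ hcard).trans h4
  · refine le_trans ?_ h5
    exact_mod_cast card_image_le
  · intro a ha
    obtain ⟨b, hb, rfl⟩ := hA a ha
    obtain ⟨t, ht, x, hx, z, hz, rfl⟩ := h6 b hb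
    refine ⟨a₀ + ψ t, mem_image_of_mem _ ht, x, hx, ψ z, ⟨z, hz, rfl⟩, ?_⟩
    rw [map_add, map_add, AddMonoidHom.comp_apply, add_assoc]

theorem Q1Conclusion.of_pow {C K : ℝ} (hK : 1 ≤ K) {N : ℕ} {Γ : Type*} [AddCommGroup Γ]
    {A : Finset Γ} (hC : 1 ≤ C) (h : Q1Conclusion C ((2 * K) ^ N) A) :
    Q1Conclusion (C * (N + 1) * 2 ^ (N * C)) K A := by
  obtain ⟨d, B, ψ, H, X, h1, h2, h3, h4, h5, h6⟩ := h
  have hN : (0 : ℝ) ≤ N := Nat.cast_nonneg _
  have hNC : 0 ≤ N * C := by positivity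
  have h2N : (1 : ℝ) ≤ 2 ^ (N * C) := Real.one_le_rpow (by norm_num) hNC
  have hlogK : 0 ≤ Real.log (2 * K) := Real.log_nonneg (by linarith)
  refine ⟨d, B, ψ, H, X, ?_, h2, h3, h4, ?_, h6⟩
  · have e1 : Real.log (2 * (2 * K) ^ N) ≤ (N + 1) * Real.log (2 * K) := by
      rw [Real.log_mul (by norm_num) (by positivity), Real.log_pow]
      have := Real.log_le_log (by norm_num) (show (2 : ℝ) ≤ 2 * K by linarith)
      linarith
    calc (d : ℝ) ≤ C * Real.log (2 * (2 * K) ^ N) := h1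
      _ ≤ C * ((N + 1) * Real.log (2 * K)) := by gcongr
      _ = C * (N + 1) * 1 * Real.log (2 * K) := by ring
      _ ≤ C * (N + 1) * 2 ^ (N * C) * Real.log (2 * K) := by gcongr
  · have e1 : ((2 * K) ^ N) ^ C = 2 ^ (N * C) * K ^ (N * C) := by
      rw [← Real.rpow_natCast, ← Real.rpow_mul (by linarith), Real.mul_rpow (by norm_num)
        (by linarith)]
    have e2 : (N : ℝ) * C ≤ C * (N + 1) * 2 ^ (N * C) := by
      have : C * (N + 1) * 1 ≤ C * (N + 1) * 2 ^ (N * C) := by gcongr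
      nlinarith
    have e3 : K ^ (N * C) ≤ K ^ (C * (N + 1) * 2 ^ (N * C)) :=
      Real.rpow_le_rpow_of_exponent_le hK e2
    have e4 : (0 : ℝ) ≤ K ^ (N * C) := Real.rpow_nonneg (by linarith) _
    calc (X.card : ℝ) ≤ C * ((2 * K) ^ N) ^ C := h5
      _ = C * 1 * 2 ^ (N * C) * K ^ (N * C) := by
          rw [e1]
          ring
      _ ≤ C * (N + 1) * 2 ^ (N * C) * K ^ (N * C) := by
          gcongr
          linarith
      _ ≤ _ := by gcongr

theorem HasModel.mono {n : ℕ} {F F' : ℝ} (hF : F ≤ F') {Γ : Type*} [AddCommGroup Γ] {A : Finset Γ}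
    (h : HasModel n F A) : HasModel n F' A := by
  obtain ⟨M, _, _, B, φ, hM, hφ⟩ := h
  exact ⟨M, _, ‹_›, B, φ, hM.trans (mul_le_mul_of_nonneg_right hF (Nat.cast_nonneg _)), hφ⟩

/-- a set with a dense model has small doubling -/
theorem HasModel.doubling {n : ℕ} (hn : 2 ≤ n) {K : ℝ} {Γ : Type*} [AddCommGroup Γ]
    [DecidableEq Γ] {A : Finset Γ} (h : HasModel n K A) : ((A + A).card : ℝ) ≤ K * A.card := by
  classical
  obtain ⟨M, _, _, B, φ, hMK, hφ⟩ := h
  have := Fintype.ofFinite M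
  have hiso : Pool.Agent.H602.MD.IsoN n A φ := fun s t hs ht hsn htn =>
    hφ.map_sum_eq_map_sum (fun x hx => mem_coe.2 (hs x hx)) (fun x hx => mem_coe.2 (ht x hx)) hsn htn
  have hch : ∀ z : Γ, ∃ q : Γ × Γ, z ∈ A + A → q.1 ∈ A ∧ q.2 ∈ A ∧ q.1 + q.2 = z := by
    intro z
    by_cases hz : z ∈ A + A
    · obtain ⟨a, ha, b, hb, hab⟩ := mem_add.1 hz
      exact ⟨(a, b), fun _ => ⟨ha, hb, hab⟩⟩
    · exact ⟨(0, 0), fun h' => absurd h' hz⟩
  choose q hq using hch
  have hcard : (A + A).card ≤ (univ : Finset M).card := by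
    refine card_le_card_of_injOn (fun z => φ (q z).1 + φ (q z).2) (fun z _ => mem_coe.2 (mem_univ _)) ?_
    intro z hz z' hz' he
    obtain ⟨h1, h2, h3⟩ := hq z hz
    obtain ⟨h1', h2', h3'⟩ := hq z' hz'
    have := (hiso.two hn h1 h2 h1' h2').1 he
    rw [h3, h3'] at this
    exact this
  rw [card_univ, ← Nat.card_eq_fintype_card] at hcard
  have : ((A + A).card : ℝ) ≤ Nat.card M := by exact_mod_cast hcard
  exact this.trans hMK

/-- **Which abelian groups have models of polynomial size.** Let `T` be the torsion subgroup of `Γ`.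
(1) If `q T` has at most `R` elements for a squarefree `q`, then every finite nonempty `A ⊆ Γ` with
`|A + A| ≤ K |A|` is, as a whole and for every `n ≥ 2`, Freiman isomorphic of order `n` to a set of
density at least `1 / (R q (2 K) ^ ((150001 + 2 ω(q)) n))` in a finite abelian group. (2) If `q T` is
infinite for every squarefree `q`, then for some `C` and all `K ≥ 1` there is a finite nonempty `A ⊆ Γ`
with `|A + A| ≤ K |A|` which is isomorphic only to sets of density at most `C 2 ^ (- K / C)`. (3) In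
every abelian group, every finite nonempty `A` with `|A + A| ≤ K |A|` is, as a whole and for every
`n ≥ 2`, isomorphic of order `n` to a set of density at least `(2 n) ^ (- 10 ^ 17 K)` in a finite abelian
group; so the order of magnitude in (2) is sharp. (4) If moreover every nonzero finite subgroup has more
than `(2 n) ^ (10 ^ 17 K) |A|` elements (in particular if the group is torsion-free), then `A` is
isomorphic of order `n` to a set of integers in the interval `[0, (2 n) ^ (10 ^ 17 K) |A|)`, and if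
the conclusion of Q1 with the constant `C` holds for all sets of size `|A|` and doubling at most `K` in
torsion-free groups, then it holds for `A`, with the same constant. (5) On
every family of groups as in (1), with the same `q` and `R`, Q1 is equivalent to its case of the sets
which are isomorphic, of order `n`, to a set of density at least `1 / K` in a finite abelian group. -/
theorem result :
    (∀ (Γ : Type u) [AddCommGroup Γ] [DecidableEq Γ] (q R : ℕ), Squarefree q →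
      (mulTorsion q Γ).Finite → (mulTorsion q Γ).ncard ≤ R →
      ∀ (n : ℕ) (K : ℝ) (A : Finset Γ), 2 ≤ n → A.Nonempty → ((A + A).card : ℝ) ≤ K * A.card →
        HasModel n (R * q * (2 * K) ^ ((150001 + 2 * q.primeFactors.card) * n)) A) ∧
    (∀ (Γ : Type u) [AddCommGroup Γ] [DecidableEq Γ],
      (∀ q : ℕ, Squarefree q → (mulTorsion q Γ).Infinite) →
      ∃ C : ℝ, 1 ≤ C ∧ ∀ K : ℝ, 1 ≤ K → ∃ A : Finset Γ, A.Nonempty ∧
        ((A + A).card : ℝ) ≤ K * A.card ∧
        ∀ (n : ℕ) (F : ℝ), 2 ≤ n → HasModel n F A → 2 ^ (K / C) / C ≤ F) ∧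
    (∀ (Γ : Type u) [AddCommGroup Γ] [DecidableEq Γ] (n : ℕ) (K : ℝ) (A : Finset Γ), 2 ≤ n →
      A.Nonempty → ((A + A).card : ℝ) ≤ K * A.card →
      HasModel n ((2 * n) ^ (10 ^ 17 * K)) A) ∧
    (∀ (Γ : Type u) [AddCommGroup Γ] [DecidableEq Γ] (n : ℕ) (K : ℝ) (A : Finset Γ), 2 ≤ n →
      A.Nonempty → ((A + A).card : ℝ) ≤ K * A.card →
      (∀ H : AddSubgroup Γ, Finite H → H ≠ ⊥ → (2 * n) ^ (10 ^ 17 * K) * (A.card : ℝ) < Nat.card H) →
      (∃ (B : Set ℤ) (φ : Γ → ℤ), IsAddFreimanIso n (A : Set Γ) B φ ∧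
        ∀ b ∈ B, 0 ≤ b ∧ (b : ℝ) < (2 * n) ^ (10 ^ 17 * K) * A.card) ∧
      ∀ C : ℝ, (∀ (Z : Type) [AddCommGroup Z] [DecidableEq Z],
        (∀ (j : ℕ) (x : Z), j ≠ 0 → j • x = 0 → x = 0) → ∀ B : Finset Z, B.card = A.card →
        ((B + B).card : ℝ) ≤ K * B.card → Q1Conclusion C K B) → Q1Conclusion C K A) ∧
    (∀ (ι : Type w) (Γ : ι → Type u) [∀ i, AddCommGroup (Γ i)] [∀ i, DecidableEq (Γ i)] (q R n : ℕ),
      Squarefree q → (∀ i, (mulTorsion q (Γ i)).Finite ∧ (mulTorsion q (Γ i)).ncard ≤ R) → 2 ≤ n →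
      ((∃ C : ℝ, ∀ (i : ι) (K : ℝ) (A : Finset (Γ i)), 1 ≤ K → A.Nonempty →
          ((A + A).card : ℝ) ≤ K * A.card → Q1Conclusion C K A) ↔
        ∃ C : ℝ, ∀ (i : ι) (K : ℝ) (A : Finset (Γ i)), 1 ≤ K → A.Nonempty →
          HasModel n K A → Q1Conclusion C K A)) := by
  classical
  have key : ∀ (Γ : Type u) [AddCommGroup Γ] [DecidableEq Γ] (q R : ℕ), Squarefree q →
      (mulTorsion q Γ).Finite → (mulTorsion q Γ).ncard ≤ R →
      ∀ (n : ℕ) (K : ℝ) (A : Finset Γ), 2 ≤ n → A.Nonempty → ((A + A).card : ℝ) ≤ K * A.card →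
        HasModel n (R * q * (2 * K) ^ ((150001 + 2 * q.primeFactors.card) * n)) A := by
    intro Γ _ _ q R hq hfin hR n K A hn hA hK
    obtain ⟨M, _, _, φ, hM, hφ⟩ := Pool.Agent.H602.GM.gmodel hq hfin hR hA hK hn
    refine ⟨M, _, ‹_›, _, φ, ?_, hφ.freiman hn⟩
    rw [show (150001 + 2 * q.primeFactors.card) * n =
      150001 * n + 2 * n * q.primeFactors.card by ring]
    exact hM
  refine ⟨key, ?_, ?_, ?_, ?_⟩
  · intro Γ _ _ h
    obtain ⟨C, hC, hS⟩ := Pool.Agent.H602.GM.exponential.{u, 0} (G := Γ) (by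
      rintro ⟨q, hq, hfin⟩
      exact h q hq hfin)
    refine ⟨C, hC, fun K hK => ?_⟩
    obtain ⟨A, hA, hAA, hH⟩ := hS K hK
    refine ⟨A, hA, hAA, fun n F hn hF => ?_⟩
    obtain ⟨M, _, _, B, φ, hM, hφ⟩ := hF
    have h2 := IsAddFreimanIso.mono (hmn := hn) hφ
    have h3 := hH M φ (fun a ha b hb c hc d hd =>
      h2.add_eq_add (mem_coe.2 ha) (mem_coe.2 hb) (mem_coe.2 hc) (mem_coe.2 hd))
    have hpos : (0 : ℝ) < A.card := by exact_mod_cast hA.card_pos
    exact le_of_mul_le_mul_right (h3.trans hM) hpos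
  · intro Γ _ _ n K A hn hA hK
    obtain ⟨M, _, _, φ, hM, hφ⟩ := Pool.Agent.H602.EX.expmodel hA hK hn
    exact ⟨M, _, ‹_›, _, φ, hM, hφ.freiman hn⟩
  · intro Γ _ _ n K A hn hA hK hG
    obtain ⟨φ, ρ, B, ψ, a₀, hφ, hb, hc, hB, ha⟩ := Pool.Agent.H602.EX.rectifyX hA hK hn hG
    refine ⟨⟨_, φ, hφ.freiman hn, fun b hbB => ?_⟩, fun C hC =>
      (hC (Fin ρ →₀ ℤ) Pool.Agent.H602.EX.tf_finsupp B hc hB).push ψ a₀ hc ha⟩
    obtain ⟨x, hx, rfl⟩ := mem_image.1 (mem_coe.1 hbB)
    exact hb x hx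
  · intro ι Γ _ _ q R n hq hΓ hn
    constructor
    · rintro ⟨C, hC⟩
      exact ⟨C, fun i K A hK hA h => hC i K A hK hA (h.doubling hn)⟩
    · rintro ⟨C, hC⟩
      set N := (150001 + 2 * q.primeFactors.card) * n + R * q with hN
      refine ⟨max C 1 * (N + 1) * 2 ^ (N * max C 1), fun i K A hK hA hd => ?_⟩
      have h1 := key (Γ i) q R hq (hΓ i).1 (hΓ i).2 n K A hn hA hd
      have h2 : (R : ℝ) * q * (2 * K) ^ ((150001 + 2 * q.primeFactors.card) * n) ≤
          (2 * K) ^ N := by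
        have e1 : ((R * q : ℕ) : ℝ) ≤ 2 ^ (R * q) := by
          exact_mod_cast Nat.lt_two_pow_self.le
        have e2 : (2 : ℝ) ^ (R * q) ≤ (2 * K) ^ (R * q) :=
          pow_le_pow_left₀ (by norm_num) (by linarith) _
        push_cast at e1
        rw [hN, pow_add, mul_comm]
        exact mul_le_mul_of_nonneg_left (e1.trans e2) (by positivity)
      have h3 := hC i _ A (one_le_pow₀ (by linarith)) hA (h1.mono h2)
      have h4 := h3.mono (one_le_pow₀ (by linarith)) (le_max_left C 1) (by positivity)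
      exact h4.of_pow hK (le_max_right C 1)

end Pool.Agent.Results.MP_dd2a7c_co.PolynomialModelGroups
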